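import Pool.Agent.TH686.SP.Poly

/-!
# Asser's spectrum problem: partial orders of dimension two suffice

Definitions used: `LP` (the language of one binary relation symbol), `rl` (the binary relation of
a structure for it) and `Dim2` (intersection of two strict linear orders) in
`Pool/Agent/TH686/SP/Pos.lean`.
-/

set_option autoImplicit false

open FirstOrder Pool.Agent.TH686.SP

namespace Pool.Agent.Results.MP_8d783e_lc.TwoDimensionalOrders

/-- The complement of every spectrum is a spectrum if and only if the complement of every spectrum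
over finite partial orders of dimension at most two is a spectrum. -/
theorem result :
    (∀ (L : FirstOrder.Language.{0, 0}) (φ : L.Sentence),
      ∃ (L' : FirstOrder.Language.{0, 0}) (ψ : L'.Sentence),
        ∀ n : ℕ,
          (0 < n ∧ ∃ (M : Type) (_ : L'.Structure M), Nat.card M = n ∧ ψ.Realize M) ↔
            (0 < n ∧ ¬ ∃ (M : Type) (_ : L.Structure M), Nat.card M = n ∧ φ.Realize M)) ↔
    (∀ φ : LP.Sentence,
      ∃ (L' : FirstOrder.Language.{0, 0}) (ψ : L'.Sentence),
        ∀ n : ℕ,
          (0 < n ∧ ∃ (M : Type) (_ : L'.Structure M), Nat.card M = n ∧ ψ.Realize M) ↔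
            (0 < n ∧ ¬ ∃ (M : Type) (S : LP.Structure M), Nat.card M = n ∧
              Dim2 (rl M S) ∧ φ.Realize M)) := by
  have key : ∀ {p q : Prop}, (p ∧ ¬ (p ∧ q)) ↔ (p ∧ ¬ q) := by
    intro p q
    tauto
  have h := asser_main
  constructor
  · intro h1 φ
    obtain ⟨L', ψ, h2⟩ := h.1 (fun L φ => by
      obtain ⟨L', ψ, h3⟩ := h1 L φ
      exact ⟨L', ψ, fun n => (h3 n).trans key.symm⟩) φ
    exact ⟨L', ψ, fun n => (h2 n).trans key⟩
  · intro h1 L φ
    obtain ⟨L', ψ, h2⟩ := h.2 (fun φ => by
      obtain ⟨L', ψ, h3⟩ := h1 φ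
      exact ⟨L', ψ, fun n => (h3 n).trans key.symm⟩) L φ
    exact ⟨L', ψ, fun n => (h2 n).trans key⟩

end Pool.Agent.Results.MP_8d783e_lc.TwoDimensionalOrders
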