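import Pool.Agent.TH686.SP.Rud

/-!
# Rudimentary sets versus spectra: partial orders of dimension two suffice

Definitions used: `Rud` (rudimentary set of numbers, the same closure as in the frozen statement)
in `Pool/Agent/TH686/SP/Rud.lean`; `LP` (the language of one binary relation symbol), `rl` (the
binary relation of a structure for it) and `Dim2` (intersection of two strict linear orders) in
`Pool/Agent/TH686/SP/Pos.lean`.
-/

set_option autoImplicit false

open FirstOrder Pool.Agent.TH686.SP

namespace Pool.Agent.Results.MP_023469_lc.TwoDimensionalOrders

/-- Every spectrum of a first-order sentence is rudimentary if and only if every spectrum of a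
first-order sentence about finite partial orders of dimension at most two is rudimentary. -/
theorem result :
    (∀ (L : FirstOrder.Language.{0, 0}) (φ : L.Sentence),
      Rud {n : ℕ | 0 < n ∧ ∃ (M : Type) (_ : L.Structure M), Nat.card M = n ∧ φ.Realize M}) ↔
    (∀ φ : LP.Sentence,
      Rud {n : ℕ | 0 < n ∧ ∃ (M : Type) (S : LP.Structure M), Nat.card M = n ∧
        Dim2 (rl M S) ∧ φ.Realize M}) :=
  rud_main

end Pool.Agent.Results.MP_023469_lc.TwoDimensionalOrders
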